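import Mathlib

namespace Pool.Agent.Results.MP_0c20fd_an.NotSmooth

variable {𝕜 : Type} [RCLike 𝕜] {X : Type} [NormedAddCommGroup X] [NormedSpace 𝕜 X]

def SumBound (T : X →L[𝕜] X) (C : ℝ) : Prop :=
  ∀ (m : ℕ) (x : Fin m → X),
    Real.sqrt (∑ i, ‖T (x i)‖ ^ 2) ≤
      C * ⨆ f : {f : X →L[𝕜] 𝕜 // ‖f‖ ≤ 1}, Real.sqrt (∑ i, ‖f.1 (x i)‖ ^ 2)

def Norming (p : (X →L[𝕜] X) → ℝ) (T : X →L[𝕜] X) (φ : (X →L[𝕜] X) →ₗ[𝕜] 𝕜) : Prop :=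
  IsLeast {K : ℝ | ∀ S, ‖φ S‖ ≤ K * p S} 1 ∧ φ T = (p T : 𝕜)

lemma bdd {m : ℕ} (x : Fin m → X) :
    BddAbove (Set.range fun f : {f : X →L[𝕜] 𝕜 // ‖f‖ ≤ 1} =>
      Real.sqrt (∑ i, ‖f.1 (x i)‖ ^ 2)) := by
  refine ⟨Real.sqrt (∑ i, ‖x i‖ ^ 2), ?_⟩
  rintro _ ⟨f, rfl⟩
  apply Real.sqrt_le_sqrt
  refine Finset.sum_le_sum fun i _ => ?_
  have := f.1.le_opNorm (x i)
  have h2 : ‖f.1 (x i)‖ ≤ ‖x i‖ := this.trans (mul_le_of_le_one_left (norm_nonneg _) f.2)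
  gcongr

lemma proj_le (j : Fin 2) : ‖(ContinuousLinearMap.proj j : (Fin 2 → 𝕜) →L[𝕜] 𝕜)‖ ≤ 1 :=
  ContinuousLinearMap.opNorm_le_bound _ zero_le_one fun x => by
    simpa using norm_le_pi_norm x j

lemma coord_le {m : ℕ} (x : Fin m → Fin 2 → 𝕜) (j : Fin 2) :
    ∑ i, ‖x i j‖ ^ 2 ≤
      (⨆ f : {f : (Fin 2 → 𝕜) →L[𝕜] 𝕜 // ‖f‖ ≤ 1}, Real.sqrt (∑ i, ‖f.1 (x i)‖ ^ 2)) ^ 2 := by
  have h := le_ciSup (bdd (𝕜 := 𝕜) x) ⟨ContinuousLinearMap.proj j, proj_le j⟩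
  have h0 : 0 ≤ ∑ i, ‖x i j‖ ^ 2 := Finset.sum_nonneg fun i _ => by positivity
  calc ∑ i, ‖x i j‖ ^ 2 = Real.sqrt (∑ i, ‖x i j‖ ^ 2) ^ 2 := (Real.sq_sqrt h0).symm
    _ ≤ _ := by
      apply pow_le_pow_left₀ (Real.sqrt_nonneg _)
      simpa using h

lemma bound_of (S : (Fin 2 → 𝕜) →L[𝕜] (Fin 2 → 𝕜)) (c : ℝ) (hc : 0 ≤ c)
    (h : ∀ x, ‖S x‖ ≤ c * (‖x 0‖ + ‖x 1‖)) : SumBound S (2 * c) := by
  intro m x
  set s := ⨆ f : {f : (Fin 2 → 𝕜) →L[𝕜] 𝕜 // ‖f‖ ≤ 1}, Real.sqrt (∑ i, ‖f.1 (x i)‖ ^ 2)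
  have hs : 0 ≤ s := Real.iSup_nonneg fun _ => Real.sqrt_nonneg _
  apply Real.sqrt_le_iff.2 ⟨by positivity, ?_⟩
  have h0 := coord_le x 0
  have h1 := coord_le x 1
  calc ∑ i, ‖S (x i)‖ ^ 2 ≤ ∑ i, 2 * c ^ 2 * (‖x i 0‖ ^ 2 + ‖x i 1‖ ^ 2) := by
        refine Finset.sum_le_sum fun i _ => ?_
        have := pow_le_pow_left₀ (norm_nonneg _) (h (x i)) 2
        nlinarith [sq_nonneg (c * (‖x i 0‖ - ‖x i 1‖))]
    _ = 2 * c ^ 2 * (∑ i, ‖x i 0‖ ^ 2 + ∑ i, ‖x i 1‖ ^ 2) := by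
        rw [← Finset.mul_sum, Finset.sum_add_distrib]
    _ ≤ 2 * c ^ 2 * (s ^ 2 + s ^ 2) := by gcongr
    _ = _ := by ring

lemma lower (S : X →L[𝕜] X) (C : ℝ) (h : SumBound S C) (v : X) : ‖S v‖ ≤ C * ‖v‖ := by
  have h1 := h 1 fun _ => v
  have : (⨆ f : {f : X →L[𝕜] 𝕜 // ‖f‖ ≤ 1}, Real.sqrt (∑ _i : Fin 1, ‖f.1 v‖ ^ 2)) = ‖v‖ := by
    apply le_antisymm
    · haveI : Nonempty {f : X →L[𝕜] 𝕜 // ‖f‖ ≤ 1} := ⟨⟨0, by simp⟩⟩
      refine ciSup_le fun f => ?_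
      have := f.1.le_opNorm v
      simpa using this.trans (mul_le_of_le_one_left (norm_nonneg _) f.2)
    · obtain ⟨g, hg, hv⟩ := exists_dual_vector'' 𝕜 v
      have h := le_ciSup (bdd (𝕜 := 𝕜) (fun _ : Fin 1 => v)) ⟨g, hg⟩
      simpa [hv] using h
  rw [this] at h1
  simpa using h1

lemma least (S : (Fin 2 → 𝕜) →L[𝕜] (Fin 2 → 𝕜)) :
    IsLeast {C | SumBound S C} (sInf {C | SumBound S C}) := by
  apply IsClosed.isLeast_csInf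
  · have : {C | SumBound S C} = ⋂ (m : ℕ), ⋂ (x : Fin m → Fin 2 → 𝕜),
        {C : ℝ | Real.sqrt (∑ i, ‖S (x i)‖ ^ 2) ≤
      C * ⨆ f : {f : (Fin 2 → 𝕜) →L[𝕜] 𝕜 // ‖f‖ ≤ 1}, Real.sqrt (∑ i, ‖f.1 (x i)‖ ^ 2)} := by
      ext C; simp [SumBound]
    rw [this]
    exact isClosed_iInter fun m => isClosed_iInter fun x =>
      isClosed_le continuous_const (by fun_prop)
  · refine ⟨2 * ‖S‖, bound_of S _ (norm_nonneg _) fun x => (S.le_opNorm x).trans ?_⟩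
    gcongr
    refine (pi_norm_le_iff_of_nonneg (by positivity)).2 fun j => ?_
    fin_cases j <;> simp
  · refine ⟨0, fun C hC => ?_⟩
    have := lower S C hC 1
    simp only [norm_one, mul_one] at this
    exact (norm_nonneg _).trans this

noncomputable def had : (Fin 2 → 𝕜) ≃ₗ[𝕜] (Fin 2 → 𝕜) where
  toFun x := ![x 0 + x 1, x 0 - x 1]
  invFun x := ![(x 0 + x 1) / 2, (x 0 - x 1) / 2]
  map_add' x y := by ext j; fin_cases j <;> simp <;> ring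
  map_smul' c x := by ext j; fin_cases j <;> simp <;> ring
  left_inv x := by ext j; fin_cases j <;> simp
  right_inv x := by ext j; fin_cases j <;> simp <;> ring

noncomputable def ev (v : Fin 2 → 𝕜) (j : Fin 2) :
    ((Fin 2 → 𝕜) →L[𝕜] (Fin 2 → 𝕜)) →ₗ[𝕜] 𝕜 where
  toFun S := S v j
  map_add' _ _ := by simp
  map_smul' _ _ := by simp

theorem result (𝕜 : Type) [RCLike 𝕜] :
    ∃ (T : (Fin 2 → 𝕜) ≃L[𝕜] (Fin 2 → 𝕜)) (p : ((Fin 2 → 𝕜) →L[𝕜] (Fin 2 → 𝕜)) → ℝ),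
      (∀ S, IsLeast {C : ℝ | SumBound S C} (p S)) ∧
      ∃ φ ψ, φ ≠ ψ ∧ Norming p (T : (Fin 2 → 𝕜) →L[𝕜] (Fin 2 → 𝕜)) φ ∧
        Norming p (T : (Fin 2 → 𝕜) →L[𝕜] (Fin 2 → 𝕜)) ψ := by
  set T : (Fin 2 → 𝕜) ≃L[𝕜] (Fin 2 → 𝕜) := had.toContinuousLinearEquiv with hT
  have hTx : ∀ x, (T : (Fin 2 → 𝕜) →L[𝕜] (Fin 2 → 𝕜)) x = ![x 0 + x 1, x 0 - x 1] :=
    fun x => rfl
  have key : ∀ (v : Fin 2 → 𝕜) (j : Fin 2), ‖v‖ ≤ 1 →
      (T : (Fin 2 → 𝕜) →L[𝕜] (Fin 2 → 𝕜)) v j = 2 →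
      Norming (fun S => sInf {C | SumBound S C}) (T : (Fin 2 → 𝕜) →L[𝕜] (Fin 2 → 𝕜))
        (ev v j) := by
    intro v j hv h2
    have hle : ∀ S : (Fin 2 → 𝕜) →L[𝕜] (Fin 2 → 𝕜), ‖ev v j S‖ ≤ sInf {C | SumBound S C} := by
      intro S
      have h1 := lower S _ (least S).1 v
      have h0 : 0 ≤ sInf {C | SumBound S C} := by
        have := lower S _ (least S).1 1
        simp only [norm_one, mul_one] at this
        exact (norm_nonneg _).trans this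
      exact (norm_le_pi_norm (S v) j).trans (h1.trans (mul_le_of_le_one_right h0 hv))
    have hev : ev v j (T : (Fin 2 → 𝕜) →L[𝕜] (Fin 2 → 𝕜)) = 2 := h2
    have hp : sInf {C | SumBound (T : (Fin 2 → 𝕜) →L[𝕜] (Fin 2 → 𝕜)) C} = 2 := by
      apply le_antisymm
      · apply (least _).2
        have := bound_of (T : (Fin 2 → 𝕜) →L[𝕜] (Fin 2 → 𝕜)) 1 zero_le_one fun x => by
          rw [hTx, one_mul]
          refine (pi_norm_le_iff_of_nonneg (by positivity)).2 fun j => ?_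
          fin_cases j
          · simpa using norm_add_le _ _
          · simpa using norm_sub_le _ _
        simpa using this
      · have := hle T
        rw [hev] at this
        simpa using this
    refine ⟨⟨fun S => by simpa using hle S, fun K hK => ?_⟩, ?_⟩
    · have := hK T
      dsimp only at this
      rw [hev, hp] at this
      have h3 : ‖(2 : 𝕜)‖ = 2 := by simp
      linarith
    · dsimp only
      rw [hev, hp]; exact (RCLike.ofReal_ofNat 2).symm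
  refine ⟨T, fun S => sInf {C | SumBound S C}, least, ev ![1, 1] 0, ev ![1, -1] 1, ?_,
    key _ _ ?_ ?_, key _ _ ?_ ?_⟩
  · intro h
    have := congrArg (fun φ => φ (ContinuousLinearMap.id 𝕜 (Fin 2 → 𝕜))) h
    simp only [ev, LinearMap.coe_mk, AddHom.coe_mk, ContinuousLinearMap.id_apply,
      Matrix.cons_val_zero, Matrix.cons_val_one] at this
    have h2 : (2 : 𝕜) = 0 := by linear_combination this
    norm_num at h2
  · refine (pi_norm_le_iff_of_nonneg zero_le_one).2 fun j => ?_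
    fin_cases j <;> simp
  · rw [hTx]; simp; norm_num
  · refine (pi_norm_le_iff_of_nonneg zero_le_one).2 fun j => ?_
    fin_cases j <;> simp
  · rw [hTx]; simp; norm_num

end Pool.Agent.Results.MP_0c20fd_an.NotSmooth
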